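import Mathlib

/-!
# MP_28b4a6_lc: colourings that avoid graphs in each colour are extendible under forcing axioms

If the forcing axiom for fewer than `lam` dense sets holds for a class of posets that contains all
countable posets, then every colouring `c : [X]² → ω` with `|X| < lam` such that the graph of the
colour `i` receives no homomorphism from a graph of a given family `𝓗 i` of finite non-bipartite
graphs extends to a colouring of the same kind of a set with exactly `lam` points; in particular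
`c` is not maximal.  The family `𝓗 i = {K₃}` for all `i` is the case of the problem.
-/

namespace Pool.Agent.Results.MP_28b4a6_lc.HomClosedClasses

open Cardinal

/-- `D` is a dense subset of the poset `P`. -/
def IsDense {P : Type} [PartialOrder P] (D : Set P) : Prop :=
  ∀ p : P, ∃ q ∈ D, q ≤ p

/-- `G` is a filter on the poset `P`: nonempty, closed upwards, and any two elements of `G` have
a common lower bound in `G`. -/
def IsPosetFilter {P : Type} [PartialOrder P] (G : Set P) : Prop :=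
  G.Nonempty ∧ (∀ p ∈ G, ∀ q, p ≤ q → q ∈ G) ∧ (∀ p ∈ G, ∀ q ∈ G, ∃ r ∈ G, r ≤ p ∧ r ≤ q)

/-- The forcing axiom `FA_κ(Γ)` for a class `Γ` of posets: for every nonempty poset `P` in `Γ` and
every family of at most `κ` dense subsets of `P`, some filter on `P` meets all of them. -/
def ForcingAxiom (κ : Cardinal.{0}) (Γ : ∀ (P : Type) [PartialOrder P], Prop) : Prop :=
  ∀ (P : Type) [PartialOrder P] [Nonempty P], Γ P →
    ∀ 𝓓 : Set (Set P), #𝓓 ≤ κ → (∀ D ∈ 𝓓, IsDense D) →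
      ∃ G : Set P, IsPosetFilter G ∧ ∀ D ∈ 𝓓, (G ∩ D).Nonempty

/-- For every colour `i` and every `n`, a set of forbidden graphs on `n` vertices. -/
abbrev Family : Type := ∀ (_ : ℕ) (n : ℕ), Set (SimpleGraph (Fin n))

/-- A colouring of `[X]²` by natural numbers is a function on unordered pairs of elements of `X`
(its values at the diagonal pairs `s(x, x)` are never used). It avoids the family `𝓗` if for every
colour `i` no graph `H ∈ 𝓗 i` has a homomorphism to the graph of the pairs with colour `i`. -/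
def Avoids (𝓗 : Family) {X : Type} (c : Sym2 X → ℕ) : Prop :=
  ∀ (i n : ℕ), ∀ H ∈ 𝓗 i n, ¬ ∃ φ : Fin n → X,
    ∀ u v, H.Adj u v → φ u ≠ φ v ∧ c s(φ u, φ v) = i

/-- A colouring `c` of `[X]²` is maximal if no colouring `d` of `[X ∪ {y}]²` with a new point
`y ∉ X` (here the point `none` of `Option X`) that extends `c` avoids `𝓗`. -/
def Maximal (𝓗 : Family) {X : Type} (c : Sym2 X → ℕ) : Prop :=
  ∀ d : Sym2 (Option X) → ℕ, (∀ x y : X, x ≠ y → d s(some x, some y) = c s(x, y)) →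
    ¬ Avoids 𝓗 d

/-- The one point extension of `c` by the function `f`. -/
def ext {X : Type} (c : Sym2 X → ℕ) (f : X → ℕ) : Sym2 (Option X) → ℕ :=
  Sym2.lift ⟨fun a b => match a, b with
    | some x, some y => c s(x, y)
    | some x, none => f x
    | none, some y => f y
    | none, none => 0, by
    intro a b
    cases a <;> cases b <;> simp [Sym2.eq_swap]⟩

theorem ext_ss {X : Type} (c : Sym2 X → ℕ) (f : X → ℕ) (x y : X) :
    ext c f s(some x, some y) = c s(x, y) := rfl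

theorem ext_sn {X : Type} (c : Sym2 X → ℕ) (f : X → ℕ) (x : X) :
    ext c f s(some x, none) = f x := rfl

theorem ext_ns {X : Type} (c : Sym2 X → ℕ) (f : X → ℕ) (x : X) :
    ext c f s(none, some x) = f x := rfl

/-- If the points with `f a = i` which are used by the homomorphism `φ` have a common neighbour in
colour `i`, then there is a homomorphism to `X`. -/
theorem hom_of_nbr {X : Type} (c : Sym2 X → ℕ) (f : X → ℕ) (i n : ℕ) (H : SimpleGraph (Fin n))
    (φ : Fin n → Option X) (hφ : ∀ u v, H.Adj u v → φ u ≠ φ v ∧ ext c f s(φ u, φ v) = i)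
    (b : X) (hb : ∀ u a, φ u = some a → f a = i → b ≠ a ∧ c s(b, a) = i) :
    ∃ ψ : Fin n → X, ∀ u v, H.Adj u v → ψ u ≠ ψ v ∧ c s(ψ u, ψ v) = i := by
  refine ⟨fun u => (φ u).getD b, fun u v huv => ?_⟩
  obtain ⟨h1, h2⟩ := hφ u v huv
  rcases hu : φ u with _ | x <;> rcases hv : φ v with _ | y <;>
    simp only [hu, hv, Option.getD_none, Option.getD_some] at h1 h2 ⊢
  · exact absurd rfl h1
  · rw [ext_ns] at h2
    exact hb v y hv h2
  · rw [ext_sn] at h2
    have := hb u x hu h2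
    refine ⟨this.1.symm, ?_⟩
    rw [Sym2.eq_swap]
    exact this.2
  · exact ⟨fun h => h1 (by rw [h]), h2⟩

/-- If at most one point with `f a = i` is used by the homomorphism `φ`, then there is a
homomorphism to `X` or the graph is bipartite. -/
theorem hom_of_single {X : Type} (c : Sym2 X → ℕ) (f : X → ℕ) (i n : ℕ)
    (H : SimpleGraph (Fin n)) (hH : ¬ H.Colorable 2)
    (φ : Fin n → Option X) (hφ : ∀ u v, H.Adj u v → φ u ≠ φ v ∧ ext c f s(φ u, φ v) = i)
    (hb : ∀ u a v b, φ u = some a → φ v = some b → f a = i → f b = i → a = b) :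
    ∃ ψ : Fin n → X, ∀ u v, H.Adj u v → ψ u ≠ ψ v ∧ c s(ψ u, ψ v) = i := by
  classical
  -- if there is no edge of colour `i` between used points, `H` is bipartite
  by_cases he : ∃ x y : X, x ≠ y ∧ c s(x, y) = i
  · obtain ⟨x₀, y₀, hxy, hc⟩ := he
    by_cases h0 : ∃ u b, φ u = some b ∧ f b = i
    · obtain ⟨u₀, b, hu₀, hfb⟩ := h0
      have hone : ∀ u a, φ u = some a → f a = i → a = b := fun u a h1 h2 =>
        hb u a u₀ b h1 hu₀ h2 hfb
      by_cases hw : ∃ w, w ≠ b ∧ c s(w, b) = i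
      · obtain ⟨w, hwb, hwc⟩ := hw
        refine hom_of_nbr c f i n H φ hφ w fun u a h1 h2 => ?_
        rw [hone u a h1 h2]
        exact ⟨hwb, hwc⟩
      · push Not at hw
        refine ⟨fun u => match φ u with
          | none => x₀
          | some x => if x = b then y₀ else x, fun u v huv => ?_⟩
        obtain ⟨h1, h2⟩ := hφ u v huv
        rcases hu : φ u with _ | x <;> rcases hv : φ v with _ | y <;>
          simp only [hu, hv] at h1 h2 ⊢
        · exact absurd rfl h1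
        · rw [ext_ns] at h2
          simp only [hone v y hv h2, if_true]
          exact ⟨hxy, hc⟩
        · rw [ext_sn] at h2
          simp only [hone u x hu h2, if_true]
          refine ⟨hxy.symm, ?_⟩
          rw [Sym2.eq_swap]
          exact hc
        · rw [ext_ss] at h2
          have hxy' : x ≠ y := fun h => h1 (by rw [h])
          have hx : x ≠ b := by
            rintro rfl
            exact hw y hxy'.symm (by rw [Sym2.eq_swap]; exact h2)
          have hy : y ≠ b := by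
            rintro rfl
            exact hw x hxy' h2
          simp only [if_neg hx, if_neg hy]
          exact ⟨hxy', h2⟩
    · push Not at h0
      exact hom_of_nbr c f i n H φ hφ x₀ fun u a h1 h2 => absurd h2 (h0 u a h1)
  · push Not at he
    exfalso
    apply hH
    refine ⟨SimpleGraph.Coloring.mk (fun u => if φ u = none then (0 : Fin 2) else 1) ?_⟩
    intro u v huv
    obtain ⟨h1, h2⟩ := hφ u v huv
    rcases hu : φ u with _ | x <;> rcases hv : φ v with _ | y
    · rw [hu, hv] at h1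
      exact absurd rfl h1
    · simp
    · simp
    · rw [hu, hv, ext_ss] at h2
      rw [hu, hv] at h1
      exact absurd h2 (he x y fun h => h1 (by rw [h]))

/-- Case 1: a countable set `A` such that all `y` have infinitely many colours to points
of `A`. -/
theorem good_of_generic (𝓗 : Family) (h𝓗 : ∀ i n, ∀ H ∈ 𝓗 i n, ¬ H.Colorable 2)
    (κ : Cardinal.{0})
    (hFA : ForcingAxiom κ (fun P _ => Countable P)) {X : Type} (hX : #X ≤ κ)
    (c : Sym2 X → ℕ) (hc : Avoids 𝓗 c) (A : Set X) (hA : A.Countable)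
    (hinf : ∀ y : X, {n : ℕ | ∃ a ∈ A, a ≠ y ∧ c s(a, y) = n}.Infinite) :
    ∃ f : X → ℕ, Avoids 𝓗 (ext c f) := by
  classical
  have : Countable A := hA.to_subtype
  let Q : Type := {s : Finset (ℕ × A) // ∀ p ∈ s, ∀ q ∈ s, p.1 = q.1 → p.2 = q.2}
  let P : Type := Qᵒᵈ
  have : Countable P := inferInstanceAs (Countable Q)
  have : Nonempty P := ⟨OrderDual.toDual ⟨∅, by simp⟩⟩
  let D : X → Set P := fun y =>
    {s | ∃ p ∈ (OrderDual.ofDual s).1, (p.2 : X) ≠ y ∧ c s((p.2 : X), y) = p.1}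
  obtain ⟨G, hG, hGD⟩ := hFA P ‹Countable P› (Set.range D) (mk_range_le.trans hX) (by
    rintro _ ⟨y, rfl⟩
    intro s
    obtain ⟨n, hn, hns⟩ := (hinf y).exists_notMem_finset ((OrderDual.ofDual s).1.image Prod.fst)
    obtain ⟨a, ha, hay, hcay⟩ := hn
    refine ⟨OrderDual.toDual ⟨insert (n, ⟨a, ha⟩) (OrderDual.ofDual s).1, ?_⟩, ?_, ?_⟩
    · intro p hp q hq hpq
      rw [Finset.mem_insert] at hp hq
      rcases hp with rfl | hp <;> rcases hq with rfl | hq
      · rfl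
      · exact absurd (Finset.mem_image.2 ⟨q, hq, hpq.symm⟩) hns
      · exact absurd (Finset.mem_image.2 ⟨p, hp, hpq⟩) hns
      · exact (OrderDual.ofDual s).2 p hp q hq hpq
    · exact ⟨(n, ⟨a, ha⟩), Finset.mem_insert_self _ _, hay, hcay⟩
    · change (OrderDual.ofDual s).1 ⊆ _
      exact Finset.subset_insert _ _)
  have hex : ∀ y : X, ∃ n : ℕ, ∃ s ∈ G, ∃ a : A,
      (n, a) ∈ (OrderDual.ofDual s).1 ∧ (a : X) ≠ y ∧ c s((a : X), y) = n := by
    intro y
    obtain ⟨s, hsG, p, hp, h1, h2⟩ := hGD (D y) ⟨y, rfl⟩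
    exact ⟨p.1, s, hsG, p.2, hp, h1, h2⟩
  choose f hf using hex
  refine ⟨f, fun i n H hH ⟨φ, hφ⟩ => hc i n H hH ?_⟩
  by_cases h0 : ∃ x, f x = i
  · obtain ⟨x, hx⟩ := h0
    obtain ⟨s, hs, a, has, hax, hcax⟩ := hf x
    refine hom_of_nbr c f i n H φ hφ a fun u z _ hz => ?_
    obtain ⟨t, ht, b, hbt, hbz, hcbz⟩ := hf z
    obtain ⟨r, hr, hrs, hrt⟩ := hG.2.2 s hs t ht
    have h1 : (f x, a) ∈ (OrderDual.ofDual r).1 := (show (OrderDual.ofDual s).1 ⊆ _ from hrs) has
    have h2 : (f z, b) ∈ (OrderDual.ofDual r).1 := (show (OrderDual.ofDual t).1 ⊆ _ from hrt) hbt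
    have hab : a = b := (OrderDual.ofDual r).2 _ h1 _ h2 (hx.trans hz.symm)
    subst hab
    exact ⟨hbz, hcbz.trans hz⟩
  · push Not at h0
    exact hom_of_single c f i n H (h𝓗 i n H hH) φ hφ fun u a v b _ _ h _ => absurd h (h0 a)

/-- Case 2: some finite number of colours suffices on all finite sets. -/
theorem good_of_bounded (𝓗 : Family) (h𝓗 : ∀ i n, ∀ H ∈ 𝓗 i n, ¬ H.Colorable 2)
    {X : Type} (c : Sym2 X → ℕ) (hc : Avoids 𝓗 c) (m : ℕ)
    (hm : ∀ F : Finset X, ∃ y : X, ∀ a ∈ F, a ≠ y → c s(a, y) < m) :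
    ∃ f : X → ℕ, Avoids 𝓗 (ext c f) := by
  classical
  choose y hy using hm
  let g : Finset X → (a : X) → Fin (m + 1) := fun F a =>
    if h : a ≠ y F ∧ c s(a, y F) < m then ⟨c s(a, y F), by omega⟩ else Fin.last m
  obtain ⟨χ, hχ⟩ := Finset.rado_selection g
  refine ⟨fun x => (χ x : ℕ), fun i n H hH ⟨φ, hφ⟩ => hc i n H hH ?_⟩
  obtain ⟨t, ht, hχt⟩ := hχ (Finset.univ.biUnion fun u => (φ u).toFinset)
  have hmem : ∀ u a, φ u = some a → a ∈ Finset.univ.biUnion fun u => (φ u).toFinset := by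
    intro u a hu
    rw [Finset.mem_biUnion]
    exact ⟨u, Finset.mem_univ _, by rw [hu]; simp⟩
  have val : ∀ a ∈ t, a ≠ y t → ((g t a : Fin (m + 1)) : ℕ) = c s(a, y t) := by
    intro a ha hay
    have : a ≠ y t ∧ c s(a, y t) < m := ⟨hay, hy t a ha hay⟩
    simp only [g]
    rw [dif_pos this]
  have valy : ((g t (y t) : Fin (m + 1)) : ℕ) = m := by
    simp [g]
  by_cases hi : i = m
  · refine hom_of_single c _ i n H (h𝓗 i n H hH) φ hφ ?_
    have key : ∀ u a, φ u = some a → (χ a : ℕ) = i → a = y t := by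
      intro u a hu ha
      by_contra hay
      have h1 := hmem u a hu
      have h2 := hy t a (ht h1) hay
      rw [hχt a h1, val a (ht h1) hay] at ha
      omega
    intro u a v b hu hv ha hb
    rw [key u a hu ha, key v b hv hb]
  · refine hom_of_nbr c _ i n H φ hφ (y t) fun u a hu ha => ?_
    have h1 := hmem u a hu
    rw [hχt a h1] at ha
    have hay : a ≠ y t := by
      rintro rfl
      exact hi (ha.symm.trans valy)
    rw [val a (ht h1) hay] at ha
    refine ⟨hay.symm, ?_⟩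
    rw [Sym2.eq_swap]
    exact ha

/-- The one point extension. -/
theorem one_point (𝓗 : Family) (h𝓗 : ∀ i n, ∀ H ∈ 𝓗 i n, ¬ H.Colorable 2) (κ : Cardinal.{0})
    (hFA : ForcingAxiom κ (fun P _ => Countable P)) {X : Type} (hX : #X ≤ κ) (c : Sym2 X → ℕ)
    (hc : Avoids 𝓗 c) : ∃ f : X → ℕ, Avoids 𝓗 (ext c f) := by
  classical
  by_cases h1 : ∃ A : Set X, A.Countable ∧
      ∀ y : X, {n : ℕ | ∃ a ∈ A, a ≠ y ∧ c s(a, y) = n}.Infinite
  · obtain ⟨A, hA, hinf⟩ := h1
    exact good_of_generic 𝓗 h𝓗 κ hFA hX c hc A hA hinf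
  · push Not at h1
    have h2 : ∃ m : ℕ, ∀ F : Finset X, ∃ y : X, ∀ a ∈ F, a ≠ y → c s(a, y) < m := by
      by_contra hcon
      push Not at hcon
      choose F hF using hcon
      obtain ⟨y, hy⟩ := h1 (⋃ m, (F m : Set X)) (Set.countable_iUnion fun m =>
        (F m).countable_toSet)
      obtain ⟨m, hm⟩ := hy.bddAbove
      obtain ⟨a, ha, hay, hle⟩ := hF (m + 1) y
      have := hm (show c s(a, y) ∈ _ from ⟨a, Set.mem_iUnion.2 ⟨m + 1, ha⟩, hay, rfl⟩)
      omega
    obtain ⟨m, hm⟩ := h2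
    exact good_of_bounded 𝓗 h𝓗 c hc m hm

/-- `d` avoids `𝓗` on the set `S`. -/
def AvoidsOn (𝓗 : Family) {Y : Type} (S : Set Y) (d : Sym2 Y → ℕ) : Prop :=
  ∀ (i n : ℕ), ∀ H ∈ 𝓗 i n, ¬ ∃ φ : Fin n → Y, (∀ u, φ u ∈ S) ∧
    ∀ u v, H.Adj u v → φ u ≠ φ v ∧ d s(φ u, φ v) = i

theorem avoidsOn_iff (𝓗 : Family) {Y : Type} (S : Set Y) (d : Sym2 Y → ℕ) :
    AvoidsOn 𝓗 S d ↔ Avoids 𝓗 (fun e : Sym2 S => d (e.map Subtype.val)) := by
  constructor
  · rintro h i n H hH ⟨φ, hφ⟩
    refine h i n H hH ⟨fun u => (φ u : Y), fun u => (φ u).2, fun u v huv => ?_⟩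
    obtain ⟨h1, h2⟩ := hφ u v huv
    exact ⟨fun h => h1 (Subtype.ext h), h2⟩
  · rintro h i n H hH ⟨φ, hS, hφ⟩
    refine h i n H hH ⟨fun u => ⟨φ u, hS u⟩, fun u v huv => ?_⟩
    obtain ⟨h1, h2⟩ := hφ u v huv
    exact ⟨fun h => h1 (congrArg Subtype.val h), h2⟩

/-- Extension by one point inside a type. -/
theorem step (𝓗 : Family) (h𝓗 : ∀ i n, ∀ H ∈ 𝓗 i n, ¬ H.Colorable 2) (κ : Cardinal.{0})
    (hFA : ForcingAxiom κ (fun P _ => Countable P)) {Y : Type} (S : Set Y) (hS : #S ≤ κ)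
    (d : Sym2 Y → ℕ) (hd : AvoidsOn 𝓗 S d) (z : Y) (hz : z ∉ S) :
    ∃ d' : Sym2 Y → ℕ, (∀ x ∈ S, ∀ y ∈ S, d' s(x, y) = d s(x, y)) ∧
      AvoidsOn 𝓗 (insert z S) d' := by
  classical
  obtain ⟨f, hf⟩ := one_point 𝓗 h𝓗 κ hFA hS _ ((avoidsOn_iff 𝓗 S d).1 hd)
  let r : Y → Option S := fun y => if h : y ∈ S then some ⟨y, h⟩ else none
  have hr : ∀ y (h : y ∈ S), r y = some ⟨y, h⟩ := fun y h => dif_pos h
  have hr0 : r z = none := dif_neg hz
  refine ⟨fun e => ext (fun e : Sym2 S => d (e.map Subtype.val)) f (e.map r), ?_, ?_⟩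
  · intro x hx y hy
    change ext (fun e : Sym2 S => d (e.map Subtype.val)) f s(r x, r y) = d s(x, y)
    rw [hr x hx, hr y hy]
    rfl
  · rintro i n H hH ⟨φ, hS', hφ⟩
    refine hf i n H hH ⟨fun u => r (φ u), fun u v huv => ?_⟩
    obtain ⟨h1, h2⟩ := hφ u v huv
    refine ⟨fun h => h1 ?_, h2⟩
    change r (φ u) = r (φ v) at h
    rcases Set.mem_insert_iff.1 (hS' u) with hu | hu <;>
      rcases Set.mem_insert_iff.1 (hS' v) with hv | hv
    · rw [hu, hv]
    · rw [hu, hr0, hr _ hv] at h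
      exact absurd h (by simp)
    · rw [hv, hr0, hr _ hu] at h
      exact absurd h (by simp)
    · rw [hr _ hu, hr _ hv] at h
      exact congrArg Subtype.val (Option.some.inj h)

/-- **Theorem.** For every colour `i` let `𝓗 i` be a family of finite non-bipartite graphs. Let
`Γ` be a class of posets that contains all countable posets, and let `lam` be an infinite cardinal
such that the forcing axiom `FA_κ(Γ)` holds for all `κ < lam` (for `lam = ℵ₂` this is `MA_ℵ₁`,
respectively `PFA`). Then every colouring `c : [X]² → ω` of a set `X` with `|X| < lam` that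
avoids `𝓗` extends to a colouring that avoids `𝓗` of a set with exactly `lam` points; in
particular `c` is not maximal. -/
theorem result (𝓗 : Family) (h𝓗 : ∀ i n, ∀ H ∈ 𝓗 i n, ¬ H.Colorable 2)
    (lam : Cardinal.{0}) (hlam : ℵ₀ ≤ lam) (Γ : ∀ (P : Type) [PartialOrder P], Prop)
    (hΓ : ∀ (P : Type) [PartialOrder P], Countable P → Γ P)
    (hFAΓ : ∀ κ < lam, ForcingAxiom κ Γ)
    {X : Type} (hX : #X < lam) (c : Sym2 X → ℕ) (hc : Avoids 𝓗 c) :
    ¬ Maximal 𝓗 c ∧
    ∃ (Y : Type) (e : X ↪ Y) (d : Sym2 Y → ℕ), #Y = lam ∧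
      (∀ x y : X, x ≠ y → d s(e x, e y) = c s(x, y)) ∧ Avoids 𝓗 d := by
  classical
  have hFA : ∀ κ < lam, ForcingAxiom κ (fun P _ => Countable P) :=
    fun κ hκ P _ _ hP 𝓓 h𝓓 hD => hFAΓ κ hκ P (hΓ P hP) 𝓓 h𝓓 hD
  refine ⟨fun hmax => ?_, ?_⟩
  · obtain ⟨f, hf⟩ := one_point 𝓗 h𝓗 (#X) (hFA _ hX) le_rfl c hc
    exact hmax (ext c f) (fun x y _ => rfl) hf
  let Z : Type := lam.out
  have hZ : #Z = lam := mk_out lam
  let Y₀ : Type := X ⊕ Z
  have hY₀ : #Y₀ = lam := by
    rw [mk_sum, lift_id, lift_id, hZ]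
    exact add_eq_right hlam hX.le
  -- the partial extensions
  let α : Type := {p : Set Y₀ × (Sym2 Y₀ → ℕ) // (∀ x : X, Sum.inl x ∈ p.1) ∧
    (∀ x y : X, p.2 s(Sum.inl x, Sum.inl y) = c s(x, y)) ∧ AvoidsOn 𝓗 p.1 p.2}
  let R : α → α → Prop := fun p q => p.1.1 ⊆ q.1.1 ∧
    ∀ x ∈ p.1.1, ∀ y ∈ p.1.1, q.1.2 s(x, y) = p.1.2 s(x, y)
  -- the start
  let g₀ : Y₀ → Option X := fun y => Sum.elim (fun x => some x) (fun _ => none) y
  let d₀ : Sym2 Y₀ → ℕ := fun e => ext c (fun _ => 0) (e.map g₀)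
  let p₀ : α := ⟨(Set.range Sum.inl, d₀), fun x => ⟨x, rfl⟩, fun x y => rfl, by
    rintro i n H hH ⟨φ, hS, hφ⟩
    choose ψ hψ using hS
    refine hc i n H hH ⟨ψ, fun u v huv => ?_⟩
    obtain ⟨h1, h2⟩ := hφ u v huv
    refine ⟨fun h => h1 (by rw [← hψ u, ← hψ v, h]), ?_⟩
    have h2' : d₀ s(φ u, φ v) = i := h2
    rw [← hψ u, ← hψ v] at h2'
    exact h2'⟩
  obtain ⟨M, hM⟩ : ∃ M : α, ∀ a, R M a → R a M := by
    refine exists_maximal_of_chains_bounded ?_ ?_
    · intro C hC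
      by_cases hCe : C.Nonempty
      · -- the union
        let S : Set Y₀ := {y | ∃ p ∈ C, y ∈ p.1.1}
        have hdir : ∀ p ∈ C, ∀ q ∈ C, ∃ r ∈ C, R p r ∧ R q r := by
          intro p hp q hq
          by_cases hpq : p = q
          · exact ⟨q, hq, by rw [hpq]; exact ⟨le_rfl, fun x _ y _ => rfl⟩,
              ⟨le_rfl, fun x _ y _ => rfl⟩⟩
          · rcases hC hp hq hpq with h | h
            · exact ⟨q, hq, h, ⟨le_rfl, fun x _ y _ => rfl⟩⟩
            · exact ⟨p, hp, ⟨le_rfl, fun x _ y _ => rfl⟩, h⟩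
        let B : Y₀ → Y₀ → Prop := fun x y => ∃ p ∈ C, x ∈ p.1.1 ∧ y ∈ p.1.1
        let dd : Sym2 Y₀ → ℕ := fun e =>
          if h : ∃ p ∈ C, ∀ x ∈ e, x ∈ p.1.1 then (Classical.choose h).1.2 e else 0
        have hdd : ∀ p ∈ C, ∀ x ∈ p.1.1, ∀ y ∈ p.1.1, dd s(x, y) = p.1.2 s(x, y) := by
          intro p hp x hx y hy
          have h : ∃ p ∈ C, ∀ w ∈ s(x, y), w ∈ p.1.1 := by
            refine ⟨p, hp, fun w hw => ?_⟩
            rcases Sym2.mem_iff.1 hw with rfl | rfl
            · exact hx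
            · exact hy
          have h1 : dd s(x, y) = (Classical.choose h).1.2 s(x, y) := dif_pos h
          obtain ⟨hq, hq'⟩ := Classical.choose_spec h
          obtain ⟨r, _, hr1, hr2⟩ := hdir p hp _ hq
          rw [h1, ← hr2.2 x (hq' x (Sym2.mem_mk_left x y)) y (hq' y (Sym2.mem_mk_right x y)),
            hr1.2 x hx y hy]
        have hfin : ∀ (n : ℕ) (φ : Fin n → Y₀), (∀ u, φ u ∈ S) → ∃ p ∈ C, ∀ u, φ u ∈ p.1.1 := by
          intro n φ hφ
          choose q hqC hq using hφ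
          have : ∀ s : Finset (Fin n), ∃ p ∈ C, ∀ u ∈ s, R (q u) p := by
            intro s
            induction s using Finset.induction_on with
            | empty => exact ⟨hCe.choose, hCe.choose_spec, by simp⟩
            | insert a s _ ih =>
              obtain ⟨p, hp, hps⟩ := ih
              obtain ⟨r, hr, h1, h2⟩ := hdir p hp (q a) (hqC a)
              refine ⟨r, hr, fun u hu => ?_⟩
              rcases Finset.mem_insert.1 hu with rfl | hu
              · exact h2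
              · refine ⟨(hps u hu).1.trans h1.1, fun x hx y hy => ?_⟩
                rw [h1.2 x ((hps u hu).1 hx) y ((hps u hu).1 hy), (hps u hu).2 x hx y hy]
          obtain ⟨p, hp, hpu⟩ := this Finset.univ
          exact ⟨p, hp, fun u => (hpu u (Finset.mem_univ u)).1 (hq u)⟩
        refine ⟨⟨(S, dd), fun x => ?_, fun x y => ?_, ?_⟩, fun a ha => ⟨fun y hy => ⟨a, ha, hy⟩,
          fun x hx y hy => hdd a ha x hx y hy⟩⟩
        · obtain ⟨p, hp⟩ := hCe
          exact ⟨p, hp, p.2.1 x⟩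
        · obtain ⟨p, hp⟩ := hCe
          change dd _ = _
          rw [hdd p hp _ (p.2.1 x) _ (p.2.1 y), p.2.2.1 x y]
        · rintro i n H hH ⟨φ, hS, hφ⟩
          obtain ⟨p, hp, hpφ⟩ := hfin n φ hS
          refine p.2.2.2 i n H hH ⟨φ, hpφ, fun u v huv => ?_⟩
          obtain ⟨h1, h2⟩ := hφ u v huv
          refine ⟨h1, ?_⟩
          rw [← hdd p hp _ (hpφ u) _ (hpφ v)]
          exact h2
      · exact ⟨p₀, fun a ha => absurd ⟨a, ha⟩ hCe⟩
    · intro a b c' hab hbc
      refine ⟨hab.1.trans hbc.1, fun x hx y hy => ?_⟩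
      rw [hbc.2 x (hab.1 hx) y (hab.1 hy), hab.2 x hx y hy]
  -- the maximal extension has `lam` points
  have hcard : #M.1.1 = lam := by
    refine le_antisymm ((mk_set_le _).trans hY₀.le) ?_
    by_contra hlt
    push Not at hlt
    have hne : ∃ z : Y₀, z ∉ M.1.1 := by
      by_contra hcon
      push Not at hcon
      have : M.1.1 = Set.univ := Set.eq_univ_of_forall hcon
      rw [this, mk_univ, hY₀] at hlt
      exact lt_irrefl _ hlt
    obtain ⟨z, hz⟩ := hne
    obtain ⟨d', hd1, hd2⟩ := step 𝓗 h𝓗 _ (hFA _ hlt) M.1.1 le_rfl M.1.2 M.2.2.2 z hz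
    let M' : α := ⟨(insert z M.1.1, d'), fun x => Set.mem_insert_of_mem _ (M.2.1 x),
      fun x y => (hd1 _ (M.2.1 x) _ (M.2.1 y)).trans (M.2.2.1 x y), hd2⟩
    exact hz ((hM M' ⟨Set.subset_insert _ _, hd1⟩).1 (Set.mem_insert _ _))
  refine ⟨M.1.1, ⟨fun x => ⟨Sum.inl x, M.2.1 x⟩, fun x y h => ?_⟩,
    fun e => M.1.2 (e.map Subtype.val), hcard, fun x y _ => M.2.2.1 x y,
    (avoidsOn_iff 𝓗 _ _).1 M.2.2.2⟩
  exact Sum.inl_injective (congrArg Subtype.val h)

/-- The case of the problem. Under `MA_ℵ₁` or `PFA` (take for `Γ` the ccc posets or the proper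
posets) no triangle-free colouring, continuous, Borel or arbitrary, of a set of `ℵ₁` reals is
maximal. -/
theorem triangle_free (Γ : ∀ (P : Type) [PartialOrder P], Prop)
    (hΓ : ∀ (P : Type) [PartialOrder P], Countable P → Γ P) (hFA : ForcingAxiom ℵ₁ Γ)
    (X : Set ℝ) (hX : #X = ℵ₁) (c : Sym2 X → ℕ)
    (hc : ¬ ∃ x y z : X, x ≠ y ∧ y ≠ z ∧ x ≠ z ∧ c s(x, y) = c s(y, z) ∧
      c s(y, z) = c s(x, z)) :
    ∃ d : Sym2 (Option X) → ℕ, (∀ x y : X, x ≠ y → d s(some x, some y) = c s(x, y)) ∧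
      ¬ ∃ x y z : Option X, x ≠ y ∧ y ≠ z ∧ x ≠ z ∧ d s(x, y) = d s(y, z) ∧
        d s(y, z) = d s(x, z) := by
  have key : ∀ (Y : Type) (e : Sym2 Y → ℕ),
      Avoids (fun _ n => {H | n = 3 ∧ H = ⊤}) e ↔ ¬ ∃ x y z : Y, x ≠ y ∧ y ≠ z ∧ x ≠ z ∧
        e s(x, y) = e s(y, z) ∧ e s(y, z) = e s(x, z) := by
    intro Y e
    constructor
    · rintro h ⟨x, y, z, h1, h2, h3, h4, h5⟩
      refine h (e s(x, y)) 3 ⊤ ⟨rfl, rfl⟩ ⟨![x, y, z], fun u v huv => ?_⟩
      rw [SimpleGraph.top_adj] at huv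
      fin_cases u <;> fin_cases v <;> first
        | exact absurd rfl huv
        | exact ⟨h1, rfl⟩
        | exact ⟨h1.symm, congrArg e Sym2.eq_swap⟩
        | exact ⟨h2, h4.symm⟩
        | exact ⟨h2.symm, (congrArg e Sym2.eq_swap).trans h4.symm⟩
        | exact ⟨h3, (h4.trans h5).symm⟩
        | exact ⟨h3.symm, (congrArg e Sym2.eq_swap).trans (h4.trans h5).symm⟩
    · rintro h i n H ⟨rfl, rfl⟩ ⟨φ, hφ⟩
      have e1 := hφ 0 1 (by simp)
      have e2 := hφ 1 2 (by simp)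
      have e3 := hφ 0 2 (by simp)
      exact h ⟨φ 0, φ 1, φ 2, e1.1, e2.1, e3.1, e1.2.trans e2.2.symm, e2.2.trans e3.2.symm⟩
  have h1 := (result (fun _ n => {H | n = 3 ∧ H = ⊤}) (by
    rintro i n H ⟨rfl, rfl⟩ hcol
    have := SimpleGraph.chromaticNumber_le_iff_colorable.2 hcol
    rw [SimpleGraph.chromaticNumber_top] at this
    norm_num at this) (Order.succ ℵ₁) (aleph0_le_aleph 1 |>.trans (Order.le_succ _)) Γ hΓ
    (fun κ hκ P _ _ hP 𝓓 h𝓓 hD => hFA P hP 𝓓 (h𝓓.trans (Order.lt_succ_iff.1 hκ)) hD)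
    (X := X) (by rw [hX]; exact Order.lt_succ _) c ((key X c).2 hc)).1
  unfold Maximal at h1
  push Not at h1
  obtain ⟨d, hd1, hd2⟩ := h1
  exact ⟨d, hd1, (key _ d).1 hd2⟩

end Pool.Agent.Results.MP_28b4a6_lc.HomClosedClasses
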